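import Pool.Agent.Run7.h837.CA.Mu2

set_option autoImplicit false

namespace Run7.h837.CA

open Pool.Agent.Run7.h632.CA

lemma coeff_mul_X {n : ℕ} (x : T n) (i j : Fin n) (m : FreeMonoid (Fin n)) :
    (x * X i).coeff (m * FreeMonoid.of j) = if i = j then x.coeff m else 0 := by
  by_cases hij : i = j
  · subst hij
    rw [if_pos rfl, X, MonoidAlgebra.coeff_mul_single_eq_coeff_mul m, mul_one]
    intro m' _
    exact mul_left_inj _
  · rw [if_neg hij, X, MonoidAlgebra.coeff_mul_single_of_forall_mul_ne]
    intro m' h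
    have h1 := congrArg FreeMonoid.toList h
    simp only [FreeMonoid.toList_mul, FreeMonoid.toList_of] at h1
    have h2 := List.append_inj_right' h1 (by simp)
    simp at h2
    exact hij h2

lemma coeff_mul_X_one {n : ℕ} (x : T n) (i : Fin n) : (x * X i).coeff 1 = 0 := by
  rw [X, MonoidAlgebra.coeff_mul_single_of_forall_mul_ne]
  intro m' h
  have h1 := congrArg FreeMonoid.toList h
  simp at h1

lemma coeff_X_mul {n : ℕ} (x : T n) (i j : Fin n) (m : FreeMonoid (Fin n)) :
    (X i * x).coeff (FreeMonoid.of j * m) = if i = j then x.coeff m else 0 := by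
  by_cases hij : i = j
  · subst hij
    rw [if_pos rfl, X, MonoidAlgebra.coeff_single_mul_eq_mul_coeff m, one_mul]
    intro m' _
    exact mul_right_inj _
  · rw [if_neg hij, X, MonoidAlgebra.coeff_single_mul_of_forall_mul_ne]
    intro m' h
    have h1 := congrArg FreeMonoid.toList h
    simp only [FreeMonoid.toList_mul, FreeMonoid.toList_of] at h1
    have h2 := List.append_inj_left h1 (by simp)
    simp at h2
    exact hij h2

/-- the part of `x` ending in the letter `i`, this letter removed -/
noncomputable def dR {n : ℕ} (i : Fin n) (x : T n) : T n :=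
  MonoidAlgebra.ofCoeff (x.coeff.comapDomain (fun m => m * FreeMonoid.of i)
    (fun _ _ _ _ h => mul_right_cancel h))

lemma coeff_dR {n : ℕ} (i : Fin n) (x : T n) (m : FreeMonoid (Fin n)) :
    (dR i x).coeff m = x.coeff (m * FreeMonoid.of i) := by
  rw [dR, MonoidAlgebra.coeff_ofCoeff]
  exact Finsupp.comapDomain_apply _ _ _ _

lemma word_cases {n : ℕ} (m : FreeMonoid (Fin n)) :
    m = 1 ∨ ∃ (m' : FreeMonoid (Fin n)) (i : Fin n), m = m' * FreeMonoid.of i := by
  rcases List.eq_nil_or_concat m.toList with h | ⟨l, a, h⟩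
  · left
    exact FreeMonoid.toList.injective h
  · right
    refine ⟨FreeMonoid.ofList l, a, FreeMonoid.toList.injective ?_⟩
    rw [h]
    simp

lemma sum_dR {n : ℕ} (x : T n) (hx : x.coeff 1 = 0) : x = ∑ i, dR i x * X i := by
  ext m
  rw [MonoidAlgebra.coeff_sum, Finsupp.finsetSum_apply]
  rcases word_cases m with rfl | ⟨m', j, rfl⟩
  · rw [hx]
    exact (Finset.sum_eq_zero fun i _ => coeff_mul_X_one _ i).symm
  · simp only [coeff_mul_X, coeff_dR]
    simp

lemma indep_right {n : ℕ} (b : Fin n → T n) (h : ∑ i, b i * X i = 0) : ∀ i, b i = 0 := by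
  intro i
  ext m
  have h0 := congrArg (fun x => x.coeff (m * FreeMonoid.of i)) h
  simp only [MonoidAlgebra.coeff_sum, Finsupp.finsetSum_apply, coeff_mul_X] at h0
  simpa using h0

lemma indep_left {n : ℕ} (b : Fin n → T n) (h : ∑ i, X i * b i = 0) : ∀ i, b i = 0 := by
  intro i
  ext m
  have h0 := congrArg (fun x => x.coeff (FreeMonoid.of i * m)) h
  simp only [MonoidAlgebra.coeff_sum, Finsupp.finsetSum_apply, coeff_X_mul] at h0
  simpa using h0

lemma coeff_mul_Xt {n : ℕ} (f : P n) (i : Fin n) (j : ℕ) :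
    PowerSeries.coeff (j + 1) (f * Xt i) = PowerSeries.coeff j f * X i := by
  rw [Xt, ← mul_assoc, PowerSeries.coeff_succ_mul_X, PowerSeries.coeff_mul_C]

lemma coeff_zero_mul_Xt {n : ℕ} (f : P n) (i : Fin n) :
    PowerSeries.coeff 0 (f * Xt i) = 0 := by
  rw [Xt, ← mul_assoc]
  simp

theorem t_expand : S_expand := by
  intro n
  refine ⟨?_, ?_⟩
  · intro f hf h0
    refine ⟨fun i => PowerSeries.mk (fun j => dR i (PowerSeries.coeff (j + 1) f)), ?_⟩
    ext1 j
    rw [map_sum]
    cases j with
    | zero =>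
      rw [h0]
      exact (Finset.sum_eq_zero fun i _ => coeff_zero_mul_Xt _ i).symm
    | succ j =>
      simp only [coeff_mul_Xt, PowerSeries.coeff_mk]
      apply sum_dR
      by_contra hne
      have := hf (j + 1) 1 hne
      simp at this
  · intro a ha i
    ext1 j
    have h0 := congrArg (PowerSeries.coeff (j + 1)) ha
    rw [map_sum, map_zero] at h0
    simp only [coeff_mul_Xt] at h0
    rw [map_zero]
    exact indep_right (fun i => PowerSeries.coeff j (a i)) h0 i

end Run7.h837.CA
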