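import Pool.Agent.Run7.h837.CA.Mu2

set_option autoImplicit false

namespace Run7.h837.CA

open Pool.Agent.Run7.h632.CA

lemma mg_single {n : ℕ} (g : F n) (a : ℚ) : mg n (MonoidAlgebra.single g a) = a • mu n g := by
  rw [mg, MonoidAlgebra.lift_single]

lemma mg_single_one {n : ℕ} (g : F n) : mg n (MonoidAlgebra.single g 1) = mu n g := by
  rw [mg_single, one_smul]

/-- `f` is a right combination of the `X_i t` with coefficients in the group algebra -/
def RightC (n : ℕ) (f : P n) : Prop :=
  ∃ a : Fin n → MonoidAlgebra ℚ (F n), f = ∑ i, mg n (a i) * Xt i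

lemma RightC.add {n : ℕ} {f g : P n} (hf : RightC n f) (hg : RightC n g) : RightC n (f + g) := by
  obtain ⟨a, rfl⟩ := hf
  obtain ⟨b, rfl⟩ := hg
  refine ⟨fun i => a i + b i, ?_⟩
  simp only [map_add, add_mul, Finset.sum_add_distrib]

lemma RightC.mul {n : ℕ} {f : P n} (c : MonoidAlgebra ℚ (F n)) (hf : RightC n f) :
    RightC n (mg n c * f) := by
  obtain ⟨a, rfl⟩ := hf
  refine ⟨fun i => c * a i, ?_⟩
  simp only [map_mul, mul_assoc, Finset.mul_sum]

lemma rightC_mu {n : ℕ} (g : F n) : RightC n (mu n g - 1) := by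
  induction g using FreeGroup.induction_on with
  | C1 => exact ⟨fun _ => 0, by simp⟩
  | of i =>
    refine ⟨fun j => if j = i then 1 else 0, ?_⟩
    rw [Finset.sum_eq_single i]
    · dsimp only
      rw [if_pos rfl, map_one, one_mul, mu_of, Xt]
      abel
    · intro j _ hj
      dsimp only
      rw [if_neg hj, map_zero, zero_mul]
    · simp
  | inv_of i hi =>
    have h := hi.mul (- MonoidAlgebra.single (FreeGroup.of i)⁻¹ 1)
    have e : mg n (- MonoidAlgebra.single (FreeGroup.of i)⁻¹ 1) * (mu n (FreeGroup.of i) - 1) =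
        mu n (FreeGroup.of i)⁻¹ - 1 := by
      rw [map_neg, mg_single_one, neg_mul, mul_sub, ← map_mul, inv_mul_cancel, map_one, mul_one]
      abel
    rwa [e] at h
  | mul g g' hg hg' =>
    have h := (hg'.mul (MonoidAlgebra.single g 1)).add hg
    have e : mg n (MonoidAlgebra.single g 1) * (mu n g' - 1) + (mu n g - 1) =
        mu n (g * g') - 1 := by
      rw [mg_single_one, mul_sub, ← map_mul, mul_one]
      abel
    rwa [e] at h

/-- `f` is a left combination of the `u_k - 1` with coefficients in the group algebra -/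
def LeftC (n : ℕ) (u : Fin n → F n) (f : P n) : Prop :=
  ∃ a : Fin n → MonoidAlgebra ℚ (F n), f = ∑ k, (mu n (u k) - 1) * mg n (a k)

lemma LeftC.add {n : ℕ} {u : Fin n → F n} {f g : P n} (hf : LeftC n u f) (hg : LeftC n u g) :
    LeftC n u (f + g) := by
  obtain ⟨a, rfl⟩ := hf
  obtain ⟨b, rfl⟩ := hg
  refine ⟨fun i => a i + b i, ?_⟩
  simp only [map_add, mul_add, Finset.sum_add_distrib]

lemma LeftC.mul {n : ℕ} {u : Fin n → F n} {f : P n} (c : MonoidAlgebra ℚ (F n))
    (hf : LeftC n u f) : LeftC n u (f * mg n c) := by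
  obtain ⟨a, rfl⟩ := hf
  refine ⟨fun i => a i * c, ?_⟩
  simp only [map_mul, ← mul_assoc, Finset.sum_mul]

lemma LeftC.smul {n : ℕ} {u : Fin n → F n} {f : P n} (c : ℚ)
    (hf : LeftC n u f) : LeftC n u (c • f) := by
  obtain ⟨a, rfl⟩ := hf
  refine ⟨fun i => c • a i, ?_⟩
  simp only [map_smul, mul_smul_comm, Finset.smul_sum]

lemma leftC_zero {n : ℕ} (u : Fin n → F n) : LeftC n u 0 := ⟨fun _ => 0, by simp⟩

lemma leftC_phi {n : ℕ} (φ : MulAut (F n)) (g : F n) :
    LeftC n (fun k => φ (FreeGroup.of k)) (mu n (φ g) - 1) := by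
  induction g using FreeGroup.induction_on with
  | C1 => exact ⟨fun _ => 0, by simp⟩
  | of i =>
    refine ⟨fun j => if j = i then 1 else 0, ?_⟩
    rw [Finset.sum_eq_single i]
    · dsimp only
      rw [if_pos rfl, map_one, mul_one]
    · intro j _ hj
      dsimp only
      rw [if_neg hj, map_zero, mul_zero]
    · simp
  | inv_of i hi =>
    have h := hi.mul (- MonoidAlgebra.single (φ (FreeGroup.of i))⁻¹ 1)
    have e : (mu n (φ (FreeGroup.of i)) - 1) *
        mg n (- MonoidAlgebra.single (φ (FreeGroup.of i))⁻¹ 1) =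
        mu n (φ (FreeGroup.of i)⁻¹) - 1 := by
      rw [map_neg, mg_single_one, mul_neg, sub_mul, ← map_mul, mul_inv_cancel, map_one, one_mul,
        map_inv φ, neg_sub]
    rwa [e] at h
  | mul g g' hg hg' =>
    have h := (hg.mul (MonoidAlgebra.single (φ g') 1)).add hg'
    have e : (mu n (φ g) - 1) * mg n (MonoidAlgebra.single (φ g') 1) + (mu n (φ g') - 1) =
        mu n (φ (g * g')) - 1 := by
      rw [mg_single_one, sub_mul, ← map_mul, one_mul, map_mul φ]
      abel
    rwa [e] at h

lemma leftC_mu {n : ℕ} (φ : MulAut (F n)) (g : F n) :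
    LeftC n (fun k => φ (FreeGroup.of k)) (mu n g - 1) := by
  have h := leftC_phi φ (φ.symm g)
  rwa [MulEquiv.apply_symm_apply] at h

lemma leftC_const {n : ℕ} (φ : MulAut (F n)) (f : MonoidAlgebra ℚ (F n)) :
    ∃ c : ℚ, LeftC n (fun k => φ (FreeGroup.of k)) (mg n f - c • 1) := by
  induction f using MonoidAlgebra.induction_linear with
  | zero => exact ⟨0, by simpa using leftC_zero _⟩
  | add f g hf hg =>
    obtain ⟨c, hc⟩ := hf
    obtain ⟨d, hd⟩ := hg
    refine ⟨c + d, ?_⟩
    have e : mg n (f + g) - (c + d) • (1 : P n) = (mg n f - c • 1) + (mg n g - d • 1) := by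
      rw [map_add, add_smul]
      abel
    rw [e]
    exact hc.add hd
  | single g r =>
    refine ⟨r, ?_⟩
    have e : mg n (MonoidAlgebra.single g r) - r • (1 : P n) = r • (mu n g - 1) := by
      rw [mg_single, smul_sub]
    rw [e]
    exact (leftC_mu φ g).smul r

theorem t_fox : S_fox := by
  intro n
  refine ⟨rightC_mu, ?_⟩
  intro φ f hf
  obtain ⟨c, a, ha⟩ := leftC_const φ f
  have h0 := congrArg (PowerSeries.coeff 0) ha
  rw [map_sub, hf, map_sum, Finset.sum_eq_zero] at h0
  · have hc : c = 0 := by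
      have h1 : PowerSeries.coeff 0 (c • (1 : P n)) = c • (1 : T n) := by
        rw [PowerSeries.coeff_smul]
        simp
      rw [h1, zero_sub, neg_eq_zero] at h0
      have h2 := congrArg (fun x => x.coeff 1) h0
      simpa [MonoidAlgebra.one_def] using h2
    refine ⟨a, ?_⟩
    rw [← ha, hc, zero_smul, sub_zero]
  · intro k _
    rw [coeff0_mul, map_sub, coeff0_mu]
    simp

end Run7.h837.CA
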