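import Pool.Agent.Run7.h837.CA.Expand

set_option autoImplicit false

namespace Run7.h837.CA

open Pool.Agent.Run7.h632.CA

/-- the exponent sum of `x_l` in `g`, as a rational number -/
noncomputable def es {n : ℕ} (l : Fin n) (g : F n) : ℚ :=
  (PowerSeries.coeff 1 (mu n g)).coeff (FreeMonoid.of l)

lemma es_mul {n : ℕ} (l : Fin n) (g g' : F n) : es l (g * g') = es l g + es l g' := by
  rw [es, coeff1_mu_mul, MonoidAlgebra.coeff_add, Finsupp.add_apply, es, es]

lemma es_of {n : ℕ} (l i : Fin n) : es l (FreeGroup.of i) = if i = l then 1 else 0 := by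
  rw [es, coeff1_mu_of, coeff_X]

lemma coeff1_mu_eq {n : ℕ} (g : F n) :
    PowerSeries.coeff 1 (mu n g) = ∑ l, es l g • (X l : T n) := by
  apply add_ext (fun g => PowerSeries.coeff 1 (mu n g)) (fun g => ∑ l, es l g • (X l : T n))
  · exact coeff1_mu_mul
  · intro a b
    simp only [es_mul, add_smul, Finset.sum_add_distrib]
  · intro i
    simp only [coeff1_mu_of, es_of]
    simp

lemma es_inv {n : ℕ} (φ : MulAut (F n)) (l : Fin n) (g : F n) :
    es l (φ.symm g) = ∑ m, es l (φ.symm (FreeGroup.of m)) * es m g := by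
  apply add_ext (fun g => es l (φ.symm g)) (fun g => ∑ m, es l (φ.symm (FreeGroup.of m)) * es m g)
  · intro a b
    simp only [map_mul, es_mul]
  · intro a b
    simp only [es_mul, mul_add, Finset.sum_add_distrib]
  · intro i
    simp only [es_of]
    simp

/-- the matrix of the exponent sums is invertible -/
lemma es_indep {n : ℕ} (φ : MulAut (F n)) (y : Fin n → T n)
    (h : ∀ l, ∑ k, es l (φ (FreeGroup.of k)) • y k = 0) : ∀ k, y k = 0 := by
  intro l
  have h1 : y l = ∑ k, (∑ m, es l (φ.symm (FreeGroup.of m)) * es m (φ (FreeGroup.of k))) • y k := by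
    have h2 : ∀ k, (∑ m, es l (φ.symm (FreeGroup.of m)) * es m (φ (FreeGroup.of k))) =
        if k = l then 1 else 0 := by
      intro k
      rw [← es_inv, MulEquiv.symm_apply_apply, es_of]
    simp only [h2]
    simp
  rw [h1]
  simp only [Finset.sum_smul]
  rw [Finset.sum_comm]
  apply Finset.sum_eq_zero
  intro m _
  simp only [mul_smul]
  rw [← Finset.smul_sum, h m, smul_zero]

lemma low_coeff {n : ℕ} (a b : P n) (j : ℕ) (ha : PowerSeries.coeff 0 a = 0)
    (hb : ∀ i < j, PowerSeries.coeff i b = 0) :
    PowerSeries.coeff (j + 1) (a * b) = PowerSeries.coeff 1 a * PowerSeries.coeff j b := by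
  rw [PowerSeries.coeff_mul, Finset.sum_eq_single (1, j)]
  · rintro ⟨p, q⟩ hp hne
    rw [Finset.HasAntidiagonal.mem_antidiagonal] at hp
    dsimp only at hp ⊢
    rcases Nat.eq_zero_or_pos p with rfl | hpp
    · rw [ha, zero_mul]
    · rw [hb q, mul_zero]
      by_contra hq
      apply hne
      have h1 : p = 1 := by omega
      have h2 : q = j := by omega
      rw [h1, h2]
  · intro h
    exact absurd (Finset.HasAntidiagonal.mem_antidiagonal.mpr (by dsimp only; omega)) h

theorem t_left : S_left := by
  intro n φ g hg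
  have key : ∀ j, ∀ k, PowerSeries.coeff j (g k) = 0 := by
    intro j
    induction j using Nat.strong_induction_on with
    | _ j ih =>
      have h0 := congrArg (PowerSeries.coeff (j + 1)) hg
      rw [map_sum, map_zero] at h0
      have h1 : ∀ k, PowerSeries.coeff (j + 1) ((mu n (φ (FreeGroup.of k)) - 1) * g k) =
          ∑ l, X l * (es l (φ (FreeGroup.of k)) • PowerSeries.coeff j (g k)) := by
        intro k
        rw [low_coeff _ _ j (by rw [map_sub, coeff0_mu]; simp) (fun i hi => ih i hi k)]
        rw [map_sub, coeff1_mu_eq, PowerSeries.coeff_one, if_neg one_ne_zero, sub_zero,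
          Finset.sum_mul]
        simp only [smul_mul_assoc, mul_smul_comm]
      rw [Finset.sum_congr rfl (fun k _ => h1 k), Finset.sum_comm] at h0
      simp only [← Finset.mul_sum] at h0
      exact es_indep φ (fun k => PowerSeries.coeff j (g k)) (indep_left _ h0)
  intro k
  ext1 j
  rw [key j k, map_zero]

end Run7.h837.CA
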