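import Pool.Agent.Run7.h632.CA.Defs

set_option autoImplicit false

namespace Run7.h837.CA

open Pool.Agent.Run7.h632.CA

lemma coeff0_mul {n : ℕ} (f g : P n) :
    PowerSeries.coeff 0 (f * g) = PowerSeries.coeff 0 f * PowerSeries.coeff 0 g := by
  rw [PowerSeries.coeff_mul]
  simp

lemma coeff1_mul {n : ℕ} (f g : P n) :
    PowerSeries.coeff 1 (f * g) = PowerSeries.coeff 0 f * PowerSeries.coeff 1 g +
      PowerSeries.coeff 1 f * PowerSeries.coeff 0 g := by
  have h : Finset.HasAntidiagonal.antidiagonal (1 : ℕ) = {(0, 1), (1, 0)} := rfl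
  rw [PowerSeries.coeff_mul, h, Finset.sum_insert (by simp), Finset.sum_singleton]

lemma mu_of {n : ℕ} (i : Fin n) :
    mu n (FreeGroup.of i) = 1 + PowerSeries.C (X i) * PowerSeries.X := by
  simp [mu, U]

lemma coeff0_mu {n : ℕ} (g : F n) : PowerSeries.coeff 0 (mu n g) = 1 := by
  rw [PowerSeries.coeff_zero_eq_constantCoeff]
  let f : F n →* T n := (PowerSeries.constantCoeff (R := T n)).toMonoidHom.comp (mu n)
  have hf : f = 1 := by
    ext j : 1
    simp [f, mu, U]
  exact DFunLike.congr_fun hf g

lemma coeff1_mu_mul {n : ℕ} (g g' : F n) : PowerSeries.coeff 1 (mu n (g * g')) =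
    PowerSeries.coeff 1 (mu n g) + PowerSeries.coeff 1 (mu n g') := by
  rw [map_mul, coeff1_mul, coeff0_mu, coeff0_mu, one_mul, mul_one, add_comm]

lemma coeff1_mu_of {n : ℕ} (i : Fin n) :
    PowerSeries.coeff 1 (mu n (FreeGroup.of i)) = X i := by
  have h : PowerSeries.coeff 1 (PowerSeries.C (X i) * PowerSeries.X : P n) = X i := by
    rw [show (1 : ℕ) = 0 + 1 from rfl, PowerSeries.coeff_succ_mul_X]
    simp
  rw [mu_of, map_add, h]
  simp [PowerSeries.coeff_one]

/-- an additive function on the free group is determined by its values on the letters -/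
lemma add_ext {n : ℕ} {A : Type} [AddCommGroup A] (D D' : F n → A)
    (h : ∀ g g', D (g * g') = D g + D g') (h' : ∀ g g', D' (g * g') = D' g + D' g')
    (e : ∀ i, D (FreeGroup.of i) = D' (FreeGroup.of i)) : ∀ g, D g = D' g := by
  let f : F n →* Multiplicative A := MonoidHom.mk' (fun g => Multiplicative.ofAdd (D g))
    (fun a b => by rw [h]; rfl)
  let f' : F n →* Multiplicative A := MonoidHom.mk' (fun g => Multiplicative.ofAdd (D' g))
    (fun a b => by rw [h']; rfl)
  have : f = f' := by
    ext i : 1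
    exact congrArg Multiplicative.ofAdd (e i)
  intro g
  exact Multiplicative.ofAdd.injective (DFunLike.congr_fun this g)

lemma coeff_X {n : ℕ} (i j : Fin n) :
    (X i : T n).coeff (FreeMonoid.of j) = if i = j then 1 else 0 := by
  classical
  rw [X, MonoidAlgebra.coeff_single, Finsupp.single_apply]
  congr 1
  exact propext ⟨fun h => FreeMonoid.of_injective h, fun h => by rw [h]⟩

theorem t_mu2 : S_mu2 := by
  intro n
  refine ⟨coeff1_mu_mul, coeff1_mu_of, ?_⟩
  intro D hD g g' hg
  let L : T n → T n := fun x => ∑ i, x.coeff (FreeMonoid.of i) • D (FreeGroup.of i)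
  have hL : ∀ x y, L (x + y) = L x + L y := by
    intro x y
    simp only [L, MonoidAlgebra.coeff_add, Finsupp.add_apply, add_smul, Finset.sum_add_distrib]
  have key : ∀ g, D g = L (PowerSeries.coeff 1 (mu n g)) := by
    apply add_ext _ _ hD
    · intro a b
      rw [coeff1_mu_mul, hL]
    · intro i
      simp only [L, coeff1_mu_of, coeff_X]
      simp
  rw [key, key, hg]

end Run7.h837.CA
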